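import Pool.Agent.Q42.SH.LogOrb

/-!
# The logarithmic Sarnak conjecture along backward orbits, for all systems of any entropy

Let `T : X → X` be ANY map (no topology, no assumption on the entropy), `f : X → ℂ` bounded by `1` and
`y_0, y_1, y_2, ...` a backward orbit: `T y_{h+1} = y_h`; for instance `y_h = T^{-h} x` for invertible `T`.
Then the logarithmic averages of `μ(n) f(T^n y_h) e(α n)` up to `N` are, for every large `N`, smaller than
`δ` for all real `α` and all `h < H` but at most `(1 + ε) / δ²`.  Here the bound for `N` depends only on `H` and `ε`.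
-/

set_option autoImplicit false

open Finset Filter

namespace Pool.Agent.Results.MP_3e612f_nt.BackwardOrbits

/-- `e(x) = exp(2 π i x)` -/
noncomputable def e (x : ℝ) : ℂ := Complex.exp (2 * Real.pi * x * Complex.I)

/-- the Liouville function -/
noncomputable def liouville (n : ℕ) : ℂ := (-1) ^ ArithmeticFunction.cardFactors n

/-- the Möbius function -/
noncomputable def moebius (n : ℕ) : ℂ := ((ArithmeticFunction.moebius n : ℤ) : ℂ)

/-- the sum of `u(n) f(T^n y) e(α n) / n` over `n ≤ N` -/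
noncomputable def S {X : Type*} (u : ℕ → ℂ) (T : X → X) (f : X → ℂ) (y : X) (α : ℝ) (N : ℕ) : ℂ :=
  ∑ n ∈ Icc 1 N, u n * f (T^[n] y) * e (α * n) / n

open Classical in
/-- **Theorem.** Let `u` be the Möbius or the Liouville function, `H` a natural number and `ε > 0`.  For all
`N ≥ N₀(H, ε)`, all sets `X`, all maps `T : X → X`, all functions `f : X → ℂ` bounded by `1` and all
sequences `y_h` in `X` with `T y_{h+1} = y_h`:
* `∑_{h < H} |∑_{n ≤ N} u(n) f(T^n y_h) e(α_h n) / n|² ≤ (1 + ε) (log N)²` for all real `α_0, α_1, ...`;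
* for every `δ > 0`, the number of the `h < H` such that
  `|∑_{n ≤ N} u(n) f(T^n y_h) e(α n) / n| ≥ δ log N` for some real `α` is at most `(1 + ε) / δ²`. -/
theorem result.{v} (u : ℕ → ℂ) (hu : u = moebius ∨ u = liouville) (H : ℕ) (ε : ℝ) (hε : 0 < ε) :
    ∃ N₀ : ℕ, ∀ N : ℕ, N₀ ≤ N → ∀ (X : Type v) (T : X → X) (f : X → ℂ), (∀ x, ‖f x‖ ≤ 1) →
      ∀ y : ℕ → X, (∀ h, T (y (h + 1)) = y h) →
        (∀ α : ℕ → ℝ, ∑ h ∈ range H, ‖S u T f (y h) (α h) N‖ ^ 2 ≤ (1 + ε) * Real.log N ^ 2) ∧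
        ∀ δ : ℝ, 0 < δ → (((range H).filter (fun h => ∃ α : ℝ, δ * Real.log N ≤ ‖S u T f (y h) α N‖)).card : ℝ) ≤
          (1 + ε) / δ ^ 2 := by
  have key : ∃ N₀ : ℕ, ∀ N : ℕ, N₀ ≤ N → ∀ ζ : ℕ → ℕ → ℂ, (∀ a n, ‖ζ a n‖ ≤ 1) →
      (∀ a n, ζ a (n + a) = ζ 0 n) → ∀ α : ℕ → ℝ, ∑ a ∈ range H, ‖∑ n ∈ Icc 1 N, u n * ζ a n *
        Pool.Agent.Helper602.MK.ee (α a * n) / n‖ ^ 2 ≤ (1 + ε) * Real.log N ^ 2 := by
    rcases hu with rfl | rfl
    · obtain ⟨E, hE, h1⟩ := Pool.Agent.Q42.SH.mob_two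
      exact Pool.Agent.Q42.SH.log_orb moebius Pool.Agent.Q42.SH.muC_le E hE h1 H ε hε
    · obtain ⟨E, hE, h1⟩ := Pool.Agent.Q42.SH.two_LZ (-1) (by simp) (by norm_num)
      refine Pool.Agent.Q42.SH.log_orb liouville (fun n => by unfold liouville; simp) E hE
        (fun a c hac κ hκ => ?_) H ε hε
      obtain ⟨N₀, h5⟩ := h1 a c hac κ hκ
      refine ⟨N₀, fun N hN hNE γ => ?_⟩
      have h6 := h5 N hN hNE γ N le_rfl
      refine le_trans (le_of_eq ?_) h6
      congr 1
      refine sum_congr rfl fun n _ => ?_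
      unfold liouville
      rw [map_pow]
  obtain ⟨N₀, hN₀⟩ := key
  refine ⟨N₀ + 2, fun N hN X T f hf y hy => ?_⟩
  have hlog : 0 < Real.log N := Real.log_pos (by exact_mod_cast (by omega : 1 < N))
  have hyy : ∀ a n : ℕ, T^[n + a] (y a) = T^[n] (y 0) := by
    intro a
    induction a with
    | zero => intro n; rfl
    | succ a ih =>
      intro n
      have e1 : n + (a + 1) = (n + a) + 1 := by ring
      rw [e1, Function.iterate_succ_apply, hy, ih]
  have main : ∀ α : ℕ → ℝ, ∑ h ∈ range H, ‖S u T f (y h) (α h) N‖ ^ 2 ≤ (1 + ε) * Real.log N ^ 2 := fun α =>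
    hN₀ N (by omega) (fun a n => f (T^[n] (y a))) (fun a n => hf _) (fun a n => by
      show f (T^[n + a] (y a)) = f (T^[n] (y 0))
      rw [hyy]) α
  refine ⟨main, fun δ hδ => ?_⟩
  have h1 := Pool.Agent.Q42.SH.few_pick (range H) (fun h α => ‖S u T f (y h) α N‖) (δ * Real.log N)
    ((1 + ε) * Real.log N ^ 2) (by positivity) main
  refine h1.trans (le_of_eq ?_)
  field_simp

end Pool.Agent.Results.MP_3e612f_nt.BackwardOrbits
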