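import Pool.Agent.Y957.VK.Fin2
import Pool.Agent.Y957.VK.FlowV
import Pool.Agent.Y950.AD.Flow

/-!
# The logarithmic sums of the Möbius function against almost every dilate converge, with a rate

(1) Let `A₁, …, A_k : ℝ → ℂ` be bounded measurable functions of polynomially bounded variation and let
`c₁, …, c_k > 0`.  For Lebesgue almost every `(α₁, …, α_k)` with positive coordinates the series
`∑ μ(n) / n · A₁(α₁ n ^ c₁) ⋯ A_k(α_k n ^ c_k)` converges, and its remainders are `o ((log N) ^ (-K))` for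
every `K`.  In particular the logarithmic averages `(1 / log N) ∑_{n ≤ N}` are `O (1 / log N)`.

(2) The same for `a₁(⌊α₁ n ^ c₁⌋) ⋯ a_k(⌊α_k n ^ c_k⌋)` with arbitrary bounded sequences `a_i`, for example
`a_i m = f_i (T_i ^ m x_i)`, for any maps `T_i : X_i → X_i`, any points `x_i` and any bounded `f_i`.

(3) Let `Φ v`, `v ∈ V`, be maps of a compact metric space, jointly continuous, `V` a finite dimensional real
vector space, such that `t ↦ Φ (t v)` is a flow for every `v` (for `V = ℝ`: the time-`v` maps of a flow).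
For every `x` and almost every `v`, the system `(X, Φ v)` and the point `x` satisfy the conclusion of the
logarithmically averaged Sarnak conjecture, for all continuous `f`.
-/

set_option autoImplicit false

namespace Pool.Agent.Results.MP_3e612f_nt.LogarithmicSumsConverge

open Filter Topology MeasureTheory Finset

/-- the partial sums of `∑ b n / n` converge, with remainders `o ((log N) ^ (-K))` for every `K` -/
def ConvergesFast (b : ℕ → ℂ) : Prop := ∃ S : ℂ, ∀ K : ℕ,
  Tendsto (fun N : ℕ => (Real.log N) ^ K * ‖∑ n ∈ Icc 1 N, b n / n - S‖) atTop (𝓝 0)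

/-- polynomially bounded variation -/
def PolyVar (A : ℝ → ℂ) : Prop := ∃ C D : ℝ, 0 < D ∧ ∀ X : ℝ, 1 ≤ X →
  eVariationOn A (Set.Icc 0 X) ≤ ENNReal.ofReal (C * X ^ D)

/-- a jointly continuous family of maps which is a flow on every line through the origin -/
structure RadialFlows {V X : Type} [NormedAddCommGroup V] [NormedSpace ℝ V] [TopologicalSpace X]
    (Φ : V → X → X) : Prop where
  zero : ∀ x, Φ 0 x = x
  add : ∀ (s t : ℝ) (v : V) (x : X), Φ ((s + t) • v) x = Φ (s • v) (Φ (t • v) x)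
  continuous : Continuous fun p : V × X => Φ p.1 p.2

theorem tel (N : ℕ) (hN : 2 ≤ N) :
    1 / (((N : ℝ) + 1) * (Real.log N) ^ 2) ≤ 4 * (1 / Real.log N - 1 / Real.log ((N + 1 : ℕ) : ℝ)) := by
  have hN2 : (2 : ℝ) ≤ N := by exact_mod_cast hN
  have hl : 0 < Real.log N := Real.log_pos (by linarith)
  have hl1 : Real.log N ≤ Real.log ((N + 1 : ℕ) : ℝ) := by
    apply Real.log_le_log (by linarith)
    push_cast
    linarith
  have hl2 : Real.log ((N + 1 : ℕ) : ℝ) ≤ 2 * Real.log N := by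
    have : Real.log (((N : ℝ)) ^ 2) = 2 * Real.log N := by
      rw [Real.log_pow]
      push_cast
      ring
    rw [← this]
    apply Real.log_le_log (by positivity)
    push_cast
    nlinarith
  have hl3 : 1 / ((N : ℝ) + 1) ≤ Real.log ((N + 1 : ℕ) : ℝ) - Real.log N := by
    rw [← Real.log_div (by positivity) (by positivity)]
    have h1 := Real.one_sub_inv_le_log_of_pos (x := ((N + 1 : ℕ) : ℝ) / N) (by positivity)
    refine le_trans (le_of_eq ?_) h1
    push_cast
    field_simp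
    ring
  have hl0 : 0 < Real.log ((N + 1 : ℕ) : ℝ) := hl.trans_le hl1
  have e1 : 1 / Real.log N - 1 / Real.log ((N + 1 : ℕ) : ℝ) =
      (Real.log ((N + 1 : ℕ) : ℝ) - Real.log N) / (Real.log N * Real.log ((N + 1 : ℕ) : ℝ)) := by
    field_simp
  rw [e1]
  have h4 : (1 / ((N : ℝ) + 1)) / (Real.log N * (2 * Real.log N)) ≤
      (Real.log ((N + 1 : ℕ) : ℝ) - Real.log N) / (Real.log N * Real.log ((N + 1 : ℕ) : ℝ)) := by
    gcongr
  refine le_trans ?_ (mul_le_mul_of_nonneg_left h4 (by norm_num : (0 : ℝ) ≤ 4))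
  rw [div_div, mul_one_div]
  rw [div_le_div_iff₀ (by positivity) (by positivity)]
  nlinarith [show 0 < ((N : ℝ) + 1) * (Real.log N) ^ 2 by positivity]

theorem tel_sum (X Y : ℕ) (hX : 2 ≤ X) (hXY : X ≤ Y) :
    ∑ N ∈ Ico X Y, 1 / (((N : ℝ) + 1) * (Real.log N) ^ 2) ≤ 4 * (1 / Real.log X - 1 / Real.log Y) := by
  induction Y, hXY using Nat.le_induction with
  | base => simp
  | succ Y hY ih =>
    rw [Finset.sum_Ico_succ_top hY]
    have := tel Y (hX.trans hY)
    linarith

/-- partial summation -/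
theorem fast_of (b : ℕ → ℂ)
    (h : ∀ K : ℕ, Tendsto (fun N : ℕ => (Real.log N) ^ K / N * ‖∑ n ∈ Icc 1 N, b n‖) atTop (𝓝 0)) :
    ConvergesFast b := by
  set S : ℕ → ℂ := fun N => ∑ n ∈ Icc 1 N, b n with hS
  set U : ℕ → ℂ := fun N => ∑ n ∈ Icc 1 N, b n / n with hU
  have key : ∀ (K : ℕ) (ε : ℝ), 0 < ε → ∃ X0 : ℕ, ∀ X Y : ℕ, X0 ≤ X → X ≤ Y →
      (Real.log X) ^ K * ‖U Y - U X‖ ≤ ε := by
    intro K ε hε
    have h1 := h (K + 2)
    rw [Metric.tendsto_atTop] at h1
    obtain ⟨N0, hN0⟩ := h1 (ε / 8) (by positivity)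
    have hlog : Tendsto (fun X : ℕ => Real.log X) atTop atTop :=
      Real.tendsto_log_atTop.comp tendsto_natCast_atTop_atTop
    obtain ⟨N1, hN1⟩ := (hlog.eventually_ge_atTop 1).exists_forall_of_atTop
    refine ⟨max (max N0 N1) 2, fun X Y hX hXY => ?_⟩
    have hX0 : N0 ≤ X := (le_max_left _ _).trans ((le_max_left _ _).trans hX)
    have hX1 : N1 ≤ X := (le_max_right _ _).trans ((le_max_left _ _).trans hX)
    have hX2 : 2 ≤ X := (le_max_right _ _).trans hX
    have hLX : 1 ≤ Real.log X := hN1 X hX1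
    have hmono : ∀ N, X ≤ N → Real.log X ≤ Real.log N := fun N hN => by
      apply Real.log_le_log (by positivity)
      exact_mod_cast hN
    have hb : ∀ N, X ≤ N → (Real.log X) ^ K * (‖S N‖ * (Real.log N) ^ 2) ≤ ε / 8 * N := by
      intro N hN
      have hNp : (0 : ℝ) < N := by
        have : 0 < N := by omega
        exact_mod_cast this
      have h2 := hN0 N (hX0.trans hN)
      rw [Real.dist_eq, sub_zero] at h2
      have hLN : 1 ≤ Real.log N := hLX.trans (hmono N hN)
      rw [abs_of_nonneg (by positivity)] at h2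
      have h3 : (Real.log N) ^ (K + 2) * ‖S N‖ ≤ ε / 8 * N := by
        have h4 := h2.le
        rw [div_mul_eq_mul_div, div_le_iff₀ hNp] at h4
        exact h4
      refine le_trans ?_ h3
      rw [pow_add]
      calc (Real.log X) ^ K * (‖S N‖ * (Real.log N) ^ 2) ≤ (Real.log N) ^ K * (‖S N‖ * (Real.log N) ^ 2) := by
            gcongr
        _ = _ := by ring
    have hend : ∀ N, X ≤ N → (Real.log X) ^ K * ‖S N / ((N : ℂ) + 1)‖ ≤ ε / 8 := by
      intro N hN
      have hNp : (0 : ℝ) < N := by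
        have : 0 < N := by omega
        exact_mod_cast this
      have hLN : 1 ≤ Real.log N := hLX.trans (hmono N hN)
      have h2 := hb N hN
      have e1 : ‖(N : ℂ) + 1‖ = (N : ℝ) + 1 := by
        have : ((N : ℂ) + 1) = ((N + 1 : ℕ) : ℂ) := by push_cast; rfl
        rw [this, Complex.norm_natCast]
        push_cast; rfl
      rw [norm_div, e1, ← mul_div_assoc, div_le_iff₀ (by positivity)]
      have h3 : (Real.log X) ^ K * ‖S N‖ ≤ (Real.log X) ^ K * (‖S N‖ * (Real.log N) ^ 2) := by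
        have : (1 : ℝ) ≤ (Real.log N) ^ 2 := one_le_pow₀ hLN
        have h5 : 0 ≤ ‖S N‖ := norm_nonneg _
        have h6 : 0 ≤ (Real.log X) ^ K := by positivity
        nlinarith [mul_nonneg h6 h5]
      nlinarith
    have hmid : (Real.log X) ^ K * ‖∑ N ∈ Ico X Y, ((1 / ((N + 1 : ℕ) : ℂ)) * S (N + 1)) / (((N + 1 : ℕ) : ℂ) + 1)‖
        ≤ ε / 2 := by
      have h2 : ∀ N ∈ Ico X Y, (Real.log X) ^ K *
          ‖((1 / ((N + 1 : ℕ) : ℂ)) * S (N + 1)) / (((N + 1 : ℕ) : ℂ) + 1)‖ ≤
          ε / 8 * (1 / (((N : ℝ) + 1) * (Real.log N) ^ 2)) := by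
        intro N hN
        have hXN : X ≤ N := (Finset.mem_Ico.1 hN).1
        have hNp : (0 : ℝ) < N := by
          have : 0 < N := by omega
          exact_mod_cast this
        have hLN : 1 ≤ Real.log N := hLX.trans (hmono N hXN)
        have hLN1 : Real.log N ≤ Real.log ((N + 1 : ℕ) : ℝ) := by
          apply Real.log_le_log hNp
          push_cast
          linarith
        have h3 := hb (N + 1) (by omega)
        have e1 : ‖((N + 1 : ℕ) : ℂ) + 1‖ = (N : ℝ) + 2 := by
          have : (((N + 1 : ℕ) : ℂ) + 1) = ((N + 2 : ℕ) : ℂ) := by push_cast; ring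
          rw [this, Complex.norm_natCast]
          push_cast; rfl
        rw [norm_div, norm_mul, norm_div, norm_one, e1, Complex.norm_natCast]
        have h4 : (Real.log X) ^ K * (‖S (N + 1)‖ * (Real.log N) ^ 2) ≤ ε / 8 * ((N + 1 : ℕ) : ℝ) := by
          refine le_trans ?_ h3
          gcongr
        have hq : (0 : ℝ) < ((N + 1 : ℕ) : ℝ) := by positivity
        have e2 : (Real.log X) ^ K * (1 / ((N + 1 : ℕ) : ℝ) * ‖S (N + 1)‖ / ((N : ℝ) + 2)) =
            ((Real.log X) ^ K * (‖S (N + 1)‖ * (Real.log N) ^ 2)) / (((N + 1 : ℕ) : ℝ) * ((N : ℝ) + 2) * (Real.log N) ^ 2) := by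
          field_simp
        rw [e2]
        calc _ ≤ ε / 8 * ((N + 1 : ℕ) : ℝ) / (((N + 1 : ℕ) : ℝ) * ((N : ℝ) + 2) * (Real.log N) ^ 2) := by
              gcongr
          _ = ε / 8 * (1 / (((N : ℝ) + 2) * (Real.log N) ^ 2)) := by
              field_simp
          _ ≤ _ := by
              gcongr
              norm_num
      calc _ ≤ (Real.log X) ^ K * ∑ N ∈ Ico X Y, ‖((1 / ((N + 1 : ℕ) : ℂ)) * S (N + 1)) / (((N + 1 : ℕ) : ℂ) + 1)‖ := by
            gcongr
            exact norm_sum_le _ _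
        _ = ∑ N ∈ Ico X Y, (Real.log X) ^ K * ‖((1 / ((N + 1 : ℕ) : ℂ)) * S (N + 1)) / (((N + 1 : ℕ) : ℂ) + 1)‖ := by
            rw [Finset.mul_sum]
        _ ≤ ∑ N ∈ Ico X Y, ε / 8 * (1 / (((N : ℝ) + 1) * (Real.log N) ^ 2)) := Finset.sum_le_sum h2
        _ = ε / 8 * ∑ N ∈ Ico X Y, 1 / (((N : ℝ) + 1) * (Real.log N) ^ 2) := by rw [Finset.mul_sum]
        _ ≤ ε / 8 * (4 * (1 / Real.log X - 1 / Real.log Y)) := by
            gcongr
            exact tel_sum X Y hX2 hXY
        _ ≤ ε / 8 * (4 * 1) := by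
            gcongr
            have h5 : 0 ≤ 1 / Real.log Y := by
              have := hLX.trans (hmono Y hXY)
              positivity
            have h6 : 1 / Real.log X ≤ 1 := by
              rw [div_le_one (by linarith)]
              exact hLX
            linarith
        _ = ε / 2 := by ring
    have hdec : U Y - U X = ∑ N ∈ Ico X Y, ((1 / ((N + 1 : ℕ) : ℂ)) * S (N + 1)) / (((N + 1 : ℕ) : ℂ) + 1) +
        S Y / ((Y : ℂ) + 1) - S X / ((X : ℂ) + 1) := by
      have e1 := Pool.Agent.Y950.AD.parts b X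
      have e2 := Pool.Agent.Y950.AD.parts b Y
      simp only [hU, hS]
      rw [e1, e2]
      have e3 : ∑ N ∈ Icc 1 Y, ((1 / (N : ℂ)) * ∑ n ∈ Icc 1 N, b n) / ((N : ℂ) + 1) =
          ∑ N ∈ Icc 1 X, ((1 / (N : ℂ)) * ∑ n ∈ Icc 1 N, b n) / ((N : ℂ) + 1) +
          ∑ N ∈ Ico X Y, ((1 / ((N + 1 : ℕ) : ℂ)) * ∑ n ∈ Icc 1 (N + 1), b n) / (((N + 1 : ℕ) : ℂ) + 1) := by
        clear e2 hmid hend hb
        induction Y, hXY using Nat.le_induction with
        | base => simp
        | succ Y hY ih =>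
          rw [Finset.sum_Ico_succ_top hY, Finset.sum_Icc_succ_top (by omega), ih, add_assoc]
      rw [e3]
      ring
    rw [hdec]
    have h7 := hend Y hXY
    have h8 := hend X le_rfl
    have hLK : 0 ≤ (Real.log X) ^ K := by positivity
    calc _ ≤ (Real.log X) ^ K * (‖∑ N ∈ Ico X Y, ((1 / ((N + 1 : ℕ) : ℂ)) * S (N + 1)) / (((N + 1 : ℕ) : ℂ) + 1)‖ +
          ‖S Y / ((Y : ℂ) + 1)‖ + ‖S X / ((X : ℂ) + 1)‖) := by
          gcongr
          exact (norm_sub_le _ _).trans (add_le_add (norm_add_le _ _) le_rfl)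
      _ ≤ ε := by
          rw [mul_add, mul_add]
          linarith
  have hcau : CauchySeq U := by
    rw [Metric.cauchySeq_iff']
    intro ε hε
    obtain ⟨X0, hX0⟩ := key 0 (ε / 2) (by positivity)
    refine ⟨X0, fun Y hY => ?_⟩
    have := hX0 X0 Y le_rfl hY
    rw [pow_zero, one_mul] at this
    rw [dist_eq_norm]
    linarith
  obtain ⟨s, hs⟩ := cauchySeq_tendsto_of_complete hcau
  refine ⟨s, fun K => ?_⟩
  rw [Metric.tendsto_atTop]
  intro ε hε
  obtain ⟨X0, hX0⟩ := key K (ε / 2) (by positivity)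
  refine ⟨max X0 1, fun X hX => ?_⟩
  have hX1 : 1 ≤ X := (le_max_right _ _).trans hX
  have hL : 0 ≤ Real.log X := Real.log_nonneg (by exact_mod_cast hX1)
  have h2 : Tendsto (fun Y => (Real.log X) ^ K * ‖U Y - U X‖) atTop (𝓝 ((Real.log X) ^ K * ‖s - U X‖)) :=
    ((hs.sub_const _).norm).const_mul _
  have h3 : (Real.log X) ^ K * ‖s - U X‖ ≤ ε / 2 := by
    refine le_of_tendsto h2 ?_
    filter_upwards [eventually_ge_atTop X] with Y hY
    exact hX0 X Y ((le_max_left _ _).trans hX) hY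
  rw [Real.dist_eq, sub_zero, abs_of_nonneg (by positivity), norm_sub_rev]
  linarith

theorem RadialFlows.iter {V X : Type} [NormedAddCommGroup V] [NormedSpace ℝ V] [TopologicalSpace X]
    {Φ : V → X → X} (h : RadialFlows Φ) (v : V) (x : X) (n : ℕ) : (Φ v)^[n] x = Φ ((n : ℝ) • v) x := by
  induction n with
  | zero => simp [h.zero]
  | succ n ih =>
    rw [Function.iterate_succ_apply', ih]
    have h1 := h.add 1 n v x
    rw [one_smul] at h1
    rw [← h1]
    congr 2
    push_cast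
    ring

/-- the flow on a line -/
noncomputable def RadialFlows.flow {V X : Type} [NormedAddCommGroup V] [NormedSpace ℝ V]
    [TopologicalSpace X] {Φ : V → X → X} (h : RadialFlows Φ) (v : V) : Flow ℝ X where
  toFun t x := Φ (t • v) x
  cont' := h.continuous.comp ((continuous_fst.smul continuous_const).prodMk continuous_snd)
  map_add' s t x := h.add s t v x
  map_zero' x := by simp [h.zero]

theorem result :
    (∀ (k : ℕ) (A : Fin k → ℝ → ℂ), (∀ i x, ‖A i x‖ ≤ 1) → (∀ i, Measurable (A i)) →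
      (∀ i, PolyVar (A i)) → ∀ c : Fin k → ℝ, (∀ i, 0 < c i) →
        ∀ᵐ α ∂((volume : Measure (Fin k → ℝ)).restrict {α | ∀ i, 0 < α i}),
          ConvergesFast fun n => ((ArithmeticFunction.moebius n : ℤ) : ℂ) * ∏ i, A i (α i * (n : ℝ) ^ (c i))) ∧
    (∀ (k : ℕ) (a : Fin k → ℕ → ℂ) (M : ℝ), (∀ i n, ‖a i n‖ ≤ M) → ∀ c : Fin k → ℝ, (∀ i, 0 < c i) →
        ∀ᵐ α ∂((volume : Measure (Fin k → ℝ)).restrict {α | ∀ i, 0 < α i}),
          ConvergesFast fun n => ((ArithmeticFunction.moebius n : ℤ) : ℂ) * ∏ i, a i ⌊α i * (n : ℝ) ^ (c i)⌋₊) ∧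
    (∀ (V : Type) [NormedAddCommGroup V] [NormedSpace ℝ V] [FiniteDimensional ℝ V]
      [MeasurableSpace V] [BorelSpace V] (ν : Measure V) [ν.IsAddHaarMeasure]
      (X : Type) [MetricSpace X] [CompactSpace X] (Φ : V → X → X), RadialFlows Φ → ∀ x : X,
        ∀ᵐ v ∂ν, ∀ f : C(X, ℂ), Tendsto (fun N : ℕ => (1 / (Real.log N : ℂ)) *
          ∑ n ∈ Icc 1 N, f ((Φ v)^[n] x) * ((ArithmeticFunction.moebius n : ℤ) : ℂ) / n) atTop (𝓝 0)) := by
  refine ⟨?_, ?_, ?_⟩
  · intro k A hA hAm hAv c hc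
    have h := Pool.Agent.Y957.VK.all_all _ Pool.Agent.Y957.VK.mu_le Pool.Agent.Y957.VK.neg_mu k A hA hAm hAv c hc
    filter_upwards [h] with α hα
    exact fast_of _ hα
  · intro k a M ha c hc
    have h := Pool.Agent.Y957.VK.seq2_all _ Pool.Agent.Y957.VK.mu_le Pool.Agent.Y957.VK.neg_mu k a M ha c hc
    filter_upwards [h] with α hα
    exact fast_of _ hα
  · intro V _ _ _ _ _ ν _ X _ _ Φ hΦ x
    have h := Pool.Agent.Y957.VK.familyV Pool.Agent.Y957.VK.uc2_all _ Pool.Agent.Y957.VK.mu_le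
      Pool.Agent.Y957.VK.neg_mu ν (E := C(X, ℂ)) (fun f v => f (Φ v x)) 1
      (fun f f' v => by
        rw [one_mul, ← dist_eq_norm, ← dist_eq_norm]
        exact ContinuousMap.dist_apply_le_dist _)
      (fun v => rfl)
      (fun f => f.continuous.comp (hΦ.continuous.comp (continuous_id.prodMk continuous_const)))
      (fun f v ε hε => by
        obtain ⟨δ, hδ, h⟩ := Pool.Agent.Y950.AD.unif (hΦ.flow v) f ε hε
        refine ⟨δ, hδ, fun t s hs hsδ => ?_⟩
        have h1 := h s hs hsδ (hΦ.flow v t x)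
        rw [← (hΦ.flow v).map_add, add_comm s t] at h1
        exact h1)
      Set.univ (TopologicalSpace.IsSeparable.of_separableSpace _)
    filter_upwards [h] with v hv f
    have h1 := hv f (Set.mem_univ _)
    have h2 := Pool.Agent.Y957.VK.log_of_ces
      (fun n => f ((Φ v)^[n] x) * ((ArithmeticFunction.moebius n : ℤ) : ℂ)) ‖f‖ (fun n => by
        rw [norm_mul]
        calc _ ≤ ‖f‖ * 1 := by
              gcongr
              · exact f.norm_coe_le_norm _
              · exact Pool.Agent.Y957.VK.mu_le n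
          _ = ‖f‖ := mul_one _) (by
        refine h1.congr fun N => ?_
        congr 1
        refine Finset.sum_congr rfl fun n _ => ?_
        rw [hΦ.iter, mul_comm])
    exact h2

end Pool.Agent.Results.MP_3e612f_nt.LogarithmicSumsConverge
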