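import Pool.Agent.Y842.PH.Tri
import Pool.Agent.Y304.U.Avc
import Pool.Agent.Y304.U.Pw
import Pool.Agent.TH823.MRS.Fun
import Pool.Agent.Y842.EL.One
import Pool.Agent.Q158.LogA

/-!
# The logarithmically averaged Sarnak conjecture for systems with slow functions

The conclusion of the conjecture is proved for all continuous functions in the closed linear span of
the functions of small linear complexity and of the functions with spectrum in a closed null set of
the circle, uniformly in the point and in the linear phase, at all scales; and also in short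
intervals on average, with points which are chosen anew for each interval.
-/

set_option autoImplicit false

open Finset Filter

namespace Pool.Agent.Results.MP_3e612f_nt.SlowSystems

universe w

/-- `e(t) = exp(2 π i t)` -/
noncomputable def e (t : ℝ) : ℂ := Complex.exp (2 * Real.pi * t * Complex.I)

/-- The function `f` has small linear complexity: for each `ε > 0` there are a length `H ≥ 1` and
a subspace `V` of `ℂ^H`, of dimension at most `ε H`, such that for each point `x` the vector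
`(f(x), f(T x), …, f(T^(H-1) x))` is within Euclidean distance `√(ε H)` of a point of `V`. -/
def SmallLinearComplexity {X : Type w} (T : X → X) (f : X → ℂ) : Prop :=
  ∀ ε : ℝ, 0 < ε → ∃ H : ℕ, 1 ≤ H ∧ ∃ V : Submodule ℂ (EuclideanSpace ℂ (Fin H)),
    (Module.finrank ℂ V : ℝ) ≤ ε * H ∧
    ∀ x, ∃ v ∈ V, ∑ j : Fin H, ‖f (T^[j] x) - v j‖ ^ 2 ≤ ε * H

/-- The sequence `a` has its spectrum in `K`: it is annihilated by each absolutely summable
`g : ℤ → ℂ` whose Fourier series `∑ g(n) exp (2 π i n η)` vanishes for all `η` in an open set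
which contains `K` (`fourier n η` is `exp (2 π i n η)`). -/
def SpectrumIn (K : Set UnitAddCircle) (a : ℤ → ℂ) : Prop :=
  ∀ g : ℤ → ℂ, Summable (fun n => ‖g n‖) →
    (∃ U : Set UnitAddCircle, IsOpen U ∧ K ⊆ U ∧ ∀ η ∈ U, ∑' n, g n * fourier n η = 0) →
    ∑' n, g n * a n = 0

/-- The function `f` has null spectrum: for one closed set `K` of Lebesgue measure zero in the circle
`ℝ/ℤ` and one bound `B`, each sequence `f(x), f(T x), f(T² x), …` extends to a two-sided sequence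
bounded by `B` with spectrum in `K`. -/
def NullSpectrum {X : Type w} (T : X → X) (f : X → ℂ) : Prop :=
  ∃ (K : Set UnitAddCircle) (B : ℝ), IsClosed K ∧ MeasureTheory.volume K = 0 ∧
    ∀ x, ∃ a : ℤ → ℂ, (∀ n, ‖a n‖ ≤ B) ∧ (∀ n : ℕ, a n = f (T^[n] x)) ∧ SpectrumIn K a

/-- The two conclusions for the weight `u` and the function `f`.
(1) `(1/log N) ∑_{n ≤ N} u(n) e(α n) f(T^n x) / n → 0` as `N → ∞`, uniformly in `x` and `α`.
(2) The same in short intervals on average, where the point may change with the interval: for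
`H ≥ H₀(ε)` and `N ≥ N₀(ε, H)`,
`(1/log N) ∑_{n ≤ N} (1/n) |(1/H) ∑_{m ≤ H} u(n + m) e(α m) f(T^m x_n)| ≤ ε` for all `α` and all
points `x_1, x_2, …`. -/
def LogDisjoint {X : Type w} (u : ℕ → ℤ) (T : X → X) (f : X → ℂ) : Prop :=
  (∀ ε : ℝ, 0 < ε → ∃ N₀ : ℕ, ∀ N : ℕ, N₀ ≤ N → ∀ (α : ℝ) (x : X),
    ‖∑ n ∈ Icc 1 N, (1 / (n : ℂ)) * ((u n : ℂ) * e (α * n) * f (T^[n] x))‖ ≤ ε * Real.log N) ∧
  (∀ ε : ℝ, 0 < ε → ∃ H₀ : ℕ, ∀ H : ℕ, H₀ ≤ H → ∃ N₀ : ℕ, ∀ N : ℕ, N₀ ≤ N →
    ∀ (α : ℝ) (x : ℕ → X), ∑ n ∈ Icc 1 N, (1 / (n : ℝ)) *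
      ‖∑ m ∈ Icc 1 H, (u (n + m) : ℂ) * e (α * m) * f (T^[m] (x n))‖ ≤ ε * (H * Real.log N))

/-- **Theorem.** Let `u = μ` or `u = λ`, `X` a compact space, `T : X → X` continuous, `D` a set of
continuous functions each of which has small linear complexity or null spectrum. Then each function
`f` in the closed linear span of `D` is disjoint from `u` in logarithmic average, in the sense of (1)
and (2). In particular `(1/log N) ∑_{n ≤ N} f(T^n x) μ(n) / n → 0` for all points `x`. -/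
theorem result : ∀ u : ℕ → ℤ,
    (u = (fun n => ArithmeticFunction.moebius n) ∨
      u = (fun n => (-1) ^ ArithmeticFunction.cardFactors n)) →
    ∀ (X : Type w) [TopologicalSpace X] [CompactSpace X] (T : X → X), Continuous T →
      ∀ D : Set C(X, ℂ), (∀ f ∈ D, SmallLinearComplexity T f ∨ NullSpectrum T f) →
      ∀ f : C(X, ℂ), f ∈ (Submodule.span ℂ D).topologicalClosure →
        LogDisjoint u T f ∧
        (u = (fun n => ArithmeticFunction.moebius n) → ∀ x : X, Tendsto (fun N : ℕ =>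
          (1 / (Real.log N : ℂ)) * ∑ n ∈ Icc 1 N,
            f (T^[n] x) * ((ArithmeticFunction.moebius n : ℤ) : ℂ) / n) atTop (nhds 0)) := by
  obtain ⟨E₁, hE₁, h1⟩ := Pool.Agent.Y842.PH.one_E (Pool.Agent.Y304.U.avc Pool.Agent.Y304.U.pw)
    Pool.Agent.TH823.MRS.mob Pool.Agent.TH823.MRS.mob_bdd Pool.Agent.TH823.MRS.mob_flip
    Pool.Agent.TH823.MRS.expo_mob
  obtain ⟨E₂, hE₂, h2⟩ := Pool.Agent.Y842.PH.one_E (Pool.Agent.Y304.U.avc Pool.Agent.Y304.U.pw)
    Pool.Agent.H376R2.MR.lam Pool.Agent.Y842.EL.abs_lam Pool.Agent.TH823.MRS.lam_flip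
    Pool.Agent.TH823.MRS.expo_lam
  have conv : ∀ (g : ℕ → ℤ) (h N : ℕ) (ε : ℝ), ‖Pool.Agent.Y842.PH.Cr g h N 0‖ ≤ ε →
      |∑ k ∈ range N, ((g k * g (k + h) : ℤ) : ℝ)| ≤ ε := by
    intro g h N ε hh
    refine le_trans (le_of_eq ?_) hh
    unfold Pool.Agent.Y842.PH.Cr
    have e1 : ∑ k ∈ range N, ((g k : ℂ) * g (k + h)) * Pool.Agent.Helper602.MK.ee (0 * k) =
        ((∑ k ∈ range N, ((g k * g (k + h) : ℤ) : ℝ) : ℝ) : ℂ) := by
      push_cast
      refine Finset.sum_congr rfl fun k _ => ?_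
      rw [zero_mul]
      unfold Pool.Agent.Helper602.MK.ee
      simp
    rw [e1, Complex.norm_real, Real.norm_eq_abs]
  have mass_of : ∀ E : Set ℕ, Pool.Agent.Y958.U.LZ E → ∀ ε : ℝ, 0 < ε → ∃ X₀ : ℕ, ∀ X : ℕ, X₀ ≤ X →
      Pool.Agent.Q158.Lin.mass E X ≤ ε * Real.log X := by
    intro E hE ε hε
    obtain ⟨X₁, h1⟩ := eventually_atTop.1 (Filter.Tendsto.eventually_lt_const hε hE)
    refine ⟨max X₁ 2, fun X hX => ?_⟩
    have h2 := h1 X (le_trans (le_max_left _ _) hX)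
    have h3 : (1 : ℝ) < X := by
      have : 2 ≤ X := le_trans (le_max_right _ _) hX
      exact_mod_cast (by omega : 1 < X)
    rw [div_lt_iff₀ (Real.log_pos h3)] at h2
    exact h2.le
  intro u hu
  have hu1 : ∀ n, |u n| ≤ 1 := by
    rcases hu with rfl | rfl
    · exact Pool.Agent.TH823.MRS.mob_bdd
    · exact Pool.Agent.Y842.EL.abs_lam
  obtain ⟨E, hE, hSm⟩ : ∃ E : Set ℕ, Pool.Agent.Y958.U.LZ E ∧ Pool.Agent.Q158.Lin.Sm u E := by
    rcases hu with rfl | rfl
    · refine ⟨E₁, hE₁, fun h hh ε hε => ?_⟩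
      obtain ⟨N₀, h3⟩ := h1 h hh ε hε
      exact ⟨N₀, fun N hN hNE => conv _ h N _ (h3 N hN hNE 0)⟩
    · refine ⟨E₂, hE₂, fun h hh ε hε => ?_⟩
      obtain ⟨N₀, h3⟩ := h2 h hh ε hε
      exact ⟨N₀, fun N hN hNE => conv _ h N _ (h3 N hN hNE 0)⟩
  intro X _ _ T hT D hD f hf
  have hdis := Pool.Agent.Q158.Lin.dis_all hu1 hSm T hT D (fun g hg => by
    rcases hD g hg with h | ⟨K, B, hK, hK0, h⟩
    · exact Pool.Agent.Q158.Lin.slow_vlc T hT g h
    · exact Pool.Agent.Q158.Lin.slow_spec T hT g K hK hK0 B h) f hf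
  have hlog := Pool.Agent.Q158.Lin.logDis_of_dis hu1 (mass_of E hE) ‖f‖ (fun n => by
    rw [ContinuousMap.norm_le _ (norm_nonneg _)]
    exact fun x => ContinuousMap.norm_coe_le_norm f _) hdis
  have hLD : LogDisjoint u T f := by
    constructor
    · intro ε hε
      obtain ⟨N₀, h3⟩ := hlog.1 ε hε
      refine ⟨N₀, fun N hN α x => le_trans ?_ (h3 N hN α)⟩
      have h4 := ContinuousMap.norm_coe_le_norm (∑ n ∈ Icc 1 N, (1 / (n : ℂ)) •
        ((((u n : ℤ) : ℂ) * Pool.Agent.Q158.Lin.e (α * n)) •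
          Pool.Agent.Q158.Lin.kc T hT f n)) x
      rw [ContinuousMap.sum_apply] at h4
      exact h4
    · intro ε hε
      obtain ⟨H₀, h3⟩ := hlog.2 ε hε
      refine ⟨H₀, fun H hH => ?_⟩
      obtain ⟨N₀, h4⟩ := h3 H hH
      refine ⟨N₀, fun N hN α x => le_trans (Finset.sum_le_sum fun n _ => ?_) (h4 N hN α)⟩
      refine mul_le_mul_of_nonneg_left ?_ (by positivity)
      have h5 := ContinuousMap.norm_coe_le_norm
        (∑ m ∈ Icc 1 H, (((u (n + m) : ℤ) : ℂ) * Pool.Agent.Q158.Lin.e (α * m)) •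
          Pool.Agent.Q158.Lin.kc T hT f m) (x n)
      rwa [Pool.Agent.Q158.Lin.sum_apply0 T hT f (Icc 1 H)
        (fun m => ((u (n + m) : ℤ) : ℂ) * Pool.Agent.Q158.Lin.e (α * m))] at h5
  refine ⟨hLD, fun hmu x => ?_⟩
  rw [Metric.tendsto_atTop]
  intro ε hε
  obtain ⟨N₀, h3⟩ := hLD.1 (ε / 2) (by positivity)
  refine ⟨max N₀ 3, fun N hN => ?_⟩
  have h4 := h3 N (le_trans (le_max_left _ _) hN) 0 x
  have h5 : (1 : ℝ) < N := by
    have : 3 ≤ N := le_trans (le_max_right _ _) hN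
    exact_mod_cast (by omega : 1 < N)
  have h6 := Real.log_pos h5
  rw [dist_zero_right, norm_mul, norm_div, norm_one, Complex.norm_real, Real.norm_eq_abs,
    abs_of_pos h6]
  have h7 : ∑ n ∈ Icc 1 N, f (T^[n] x) * ((ArithmeticFunction.moebius n : ℤ) : ℂ) / n =
      ∑ n ∈ Icc 1 N, (1 / (n : ℂ)) * ((u n : ℂ) * e (0 * n) * f (T^[n] x)) := by
    refine Finset.sum_congr rfl fun n _ => ?_
    have h8 : e (0 * (n : ℝ)) = 1 := by
      unfold e
      simp
    rw [h8, hmu]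
    ring
  rw [h7]
  calc 1 / Real.log N * ‖∑ n ∈ Icc 1 N, (1 / (n : ℂ)) * ((u n : ℂ) * e (0 * n) * f (T^[n] x))‖ ≤
        1 / Real.log N * (ε / 2 * Real.log N) := mul_le_mul_of_nonneg_left h4 (by positivity)
    _ = ε / 2 := by field_simp
    _ < ε := by linarith

end Pool.Agent.Results.MP_3e612f_nt.SlowSystems
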